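import Pool.Agent.EGF.StmtsQ

/-!
# Squad EGF, row SG5: sampling for `Y`
-/

set_option autoImplicit false

open Finset

namespace Pool.Agent.EGF.H45

/-- the most frequent value of `bf` on `W` -/
theorem sg5_pigeon {V : Type} [DecidableEq V] {k : ℕ} (hk : 0 < k) (W : Finset V)
    (bf : V → Fin k) : ∃ b : Fin k, (W.card : ℝ) ≤ k * ((W.filter fun y => bf y = b).card : ℝ) := by
  classical
  by_contra hcon
  push Not at hcon
  have hne : (Finset.univ : Finset (Fin k)).Nonempty := ⟨⟨0, hk⟩, Finset.mem_univ _⟩
  have hsum : (W.card : ℝ) = ∑ b : Fin k, ((W.filter fun y => bf y = b).card : ℝ) := by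
    have := Finset.card_eq_sum_card_fiberwise (f := bf) (s := W) (t := (Finset.univ : Finset (Fin k)))
      (fun x _ => Finset.mem_coe.2 (Finset.mem_univ _))
    rw [this]
    push_cast
    rfl
  have hlt : ∑ b : Fin k, ((k : ℝ) * ((W.filter fun y => bf y = b).card : ℝ)) <
      ∑ _b : Fin k, (W.card : ℝ) :=
    Finset.sum_lt_sum_of_nonempty hne (fun b _ => hcon b)
  rw [← Finset.mul_sum, ← hsum] at hlt
  simp at hlt

theorem sg5 (drf : DrfStmt) : Sg5Stmt := by
  classical
  intro V _ k c A B W x0 x' e a bf Γ t η η' τ hA hB hW hΓ ht ht1 hη hη1 hη' hη'1 h1 h2 h3 h4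
  have hk : 0 < k := lt_of_le_of_lt (Nat.zero_le _) e.2
  have hkR : (0 : ℝ) < k := by exact_mod_cast hk
  obtain ⟨b, hb⟩ := sg5_pigeon hk W bf
  have hWc : (0 : ℝ) < W.card := by exact_mod_cast hW.card_pos
  have hAc : (0 : ℝ) < A.card := by exact_mod_cast hA.card_pos
  have hBc : (0 : ℝ) < B.card := by exact_mod_cast hB.card_pos
  set Wb := W.filter fun y => bf y = b with hWb
  have hWbc : (0 : ℝ) < Wb.card := by
    by_contra hcon
    have h0 : (Wb.card : ℝ) = 0 := le_antisymm (not_lt.1 hcon) (Nat.cast_nonneg _)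
    rw [h0, mul_zero] at hb
    linarith
  have hWbne : Wb.Nonempty := by
    rw [← Finset.card_pos]
    exact_mod_cast hWbc
  have hWbW : Wb ⊆ W := Finset.filter_subset _ _
  have hbfb : ∀ y ∈ Wb, bf y = b := fun y hy => (Finset.mem_filter.1 hy).2
  have hcardWb : (Wb.card : ℝ) ≤ W.card := by exact_mod_cast Finset.card_le_card hWbW
  have hOm : (((B ×ˢ A : Finset (V × V))).card : ℝ) = B.card * A.card := by
    rw [Finset.card_product]
    push_cast
    ring
  have hnbB : ∀ y, nb c B b y ⊆ B := fun y => Finset.filter_subset _ _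
  have halA : ∀ y, al c e A y ⊆ A := fun y => Finset.filter_subset _ _
  have htη : 0 < t * η := mul_pos ht hη
  obtain ⟨i0, hi0⟩ := hΓ
  have key := drf V (V × V) (Fin k) PEmpty Wb (B ×ˢ A)
    (fun y => nb c B b y ×ˢ al c e A y) Γ
    (fun i => (al c e B x0 ∩ al c e B (x' i)) ×ˢ (nb c A a x0 ∩ nb c A a (x' i)))
    ∅ (fun _ => ∅) (t * η) η 0 η' τ hWbne (hB.product hA) htη hη hη1 le_rfl hη' hη'1
    (fun y _ => Finset.product_subset_product (hnbB y) (halA y))
    (by
      intro y hy
      rw [hOm, Finset.card_product]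
      push_cast
      have hyW := hWbW hy
      have e1 := h1 y hyW
      rw [hbfb y hy] at e1
      have e2 := h2 y hyW i0 hi0
      have e3 : ((al c e B x0 ∩ al c e B (x' i0) ∩ nb c B (bf y) y).card : ℝ) ≤ B.card := by
        exact_mod_cast Finset.card_le_card
          (Finset.inter_subset_right.trans (Finset.filter_subset _ _))
      have e4 : ((nb c A a x0 ∩ nb c A a (x' i0) ∩ al c e A y).card : ℝ) ≤
          (al c e A y).card := by
        exact_mod_cast Finset.card_le_card Finset.inter_subset_right
      have e5 : η * (B.card * A.card) ≤ (B.card : ℝ) * (al c e A y).card :=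
        e2.trans (mul_le_mul e3 e4 (Nat.cast_nonneg _) (Nat.cast_nonneg _))
      have e6 : η * A.card ≤ ((al c e A y).card : ℝ) := by
        have : (B.card : ℝ) * (η * A.card) ≤ B.card * (al c e A y).card := by linarith
        exact le_of_mul_le_mul_left this hBc
      calc t * η * (B.card * A.card : ℝ) = (t * B.card) * (η * A.card) := by ring
        _ ≤ (nb c B b y).card * (al c e A y).card :=
          mul_le_mul e1 e6 (by positivity) (Nat.cast_nonneg _))
    (by
      intro y hy i hi
      rw [hOm, Finset.product_inter_product, Finset.card_product]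
      push_cast
      have hyW := hWbW hy
      have e2 := h2 y hyW i hi
      rw [hbfb y hy] at e2
      rw [Finset.inter_comm (nb c B b y), Finset.inter_comm (al c e A y)]
      exact e2)
    (by
      intro y _
      simp)
    h3
    (by
      refine le_trans ?_ h4
      have hcub : (Wb.card : ℝ) ^ 3 ≤ (W.card : ℝ) ^ 3 :=
        pow_le_pow_left₀ (Nat.cast_nonneg _) hcardWb 3
      have hr : (0 : ℝ) ≤ Γ.card * 2 ^ τ * η' ^ (η * τ / 4) :=
        mul_nonneg (by positivity) (Real.rpow_nonneg hη'.le _)
      have := mul_le_mul_of_nonneg_right hcub hr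
      simp only [Finset.card_empty, Nat.cast_zero, add_zero]
      nlinarith [this])
  obtain ⟨X1, hX1, J1, -, hX1ne, hcard, -, hF, -⟩ := key
  refine ⟨b, X1, hX1.trans hWbW, hX1ne, ?_, ?_⟩
  · have hX1c : (0 : ℝ) < X1.card := by exact_mod_cast hX1ne.card_pos
    have hpow : (0 : ℝ) < (t * η) ^ τ := pow_pos htη τ
    have hl : Real.log (1 / 2 * (t * η) ^ τ * Wb.card) ≤ Real.log X1.card :=
      Real.log_le_log (by positivity) hcard
    rw [Real.log_mul (by positivity) hWbc.ne', Real.log_mul (by norm_num) hpow.ne',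
      Real.log_pow] at hl
    have hl2 : Real.log W.card ≤ Real.log k + Real.log Wb.card := by
      rw [← Real.log_mul hkR.ne' hWbc.ne']
      exact Real.log_le_log hWc hb
    have hl3 : Real.log (1 / 2) = - Real.log 2 := by
      rw [one_div, Real.log_inv]
    have hl4 : Real.log (1 / (t * η)) = - Real.log (t * η) := by
      rw [one_div, Real.log_inv]
    have hl5 : Real.log 2 ≤ 1 := by
      have := Real.log_two_lt_d9
      linarith
    rw [hl4]
    rw [hl3] at hl
    linarith
  · intro y hy y' hy' i hi
    have e1 := hF y hy y' hy' i hi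
    rw [hOm, Finset.product_inter_product, Finset.product_inter_product,
      Finset.card_product] at e1
    push_cast at e1
    exact e1

end Pool.Agent.EGF.H45
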